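import Pool.Agent.Helper98.QR.StmtsS

/-!
# Row S02: the tube in terms of codes
-/

namespace QR

open Filter Topology

namespace S02

/-- `mult` is symmetric -/
theorem mult_symm {D : Type} (m : RMap D) (x y : m.Vert) : m.mult x y = m.mult y x := by
  unfold RMap.mult
  refine Nat.card_congr ⟨fun d => ⟨m.opp d.1, ?_, ?_⟩, fun d => ⟨m.opp d.1, ?_, ?_⟩, ?_, ?_⟩
  · exact d.2.2
  · rw [m.opp_opp]
    exact d.2.1
  · exact d.2.2
  · rw [m.opp_opp]
    exact d.2.1
  · intro d
    exact Subtype.ext (m.opp_opp _)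
  · intro d
    exact Subtype.ext (m.opp_opp _)

theorem near_cons {V : Type} (c : V → V → ℕ) (r : ℕ) : ∀ (x y z : V), c x y ≠ 0 →
    SPR.Near c r y z → SPR.Near c (r + 1) x z := by
  induction r with
  | zero =>
    intro x y z h h1
    have h2 : y = z := h1
    rw [← h2]
    exact Or.inr ⟨x, rfl, h⟩
  | succ r ih =>
    intro x y z h h1
    rcases h1 with h1 | ⟨w, h1, h2⟩
    · exact Or.inl (ih x y z h h1)
    · exact Or.inr ⟨w, ih x y w h h1, h2⟩

theorem near_symm {V : Type} (c : V → V → ℕ) (hc : ∀ x y, c x y = c y x) (r : ℕ) :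
    ∀ (x y : V), SPR.Near c r x y → SPR.Near c r y x := by
  induction r with
  | zero =>
    intro x y h
    have h2 : x = y := h
    exact h2.symm
  | succ r ih =>
    intro x y h
    rcases h with h | ⟨w, h1, h2⟩
    · exact Or.inl (ih x y h)
    · exact near_cons c r y w x (by rw [hc]; exact h2) (ih x w h1)

/-- finitely many maps -/
instance finite_rmap {D : Type} [Finite D] : Finite (RMap D) := by
  refine Finite.of_injective (fun m : RMap D => (m.rot, m.opp)) ?_
  intro a b h
  have h1 := Prod.mk.inj h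
  exact RMap.ext h1.1 h1.2

/-- the shifted code -/
def shift {P : ℕ} (c : Code P) (s : ℤ) : Code P where
  b := fun i => c.b i + s
  t := c.t
  step := by
    intro i
    rcases c.step i with h | h
    · left
      rw [h]
      ring
    · right
      rw [h]
      ring
  up := by
    intro i h
    refine c.up i ?_
    linarith
  per_b := by
    intro i
    show c.b (i + 2 * P) + s = c.b i + s
    rw [c.per_b]
  per_t := c.per_t

theorem shift_shift {P : ℕ} (c : Code P) (s s' : ℤ) : shift (shift c s) s' = shift c (s + s') := by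
  refine Code.ext ?_ rfl
  funext i
  show c.b i + s + s' = c.b i + (s + s')
  ring

theorem shift_zero {P : ℕ} (c : Code P) : shift c 0 = c := by
  refine Code.ext ?_ rfl
  funext i
  show c.b i + 0 = c.b i
  ring

theorem dn_shift {P : ℕ} (c : Code P) (s : ℤ) : dn P (shift c s).b = dn P c.b := by
  unfold dn
  refine Finset.filter_congr ?_
  intro i _
  show c.b (i + 1) + s = c.b i + s - 1 ↔ c.b (i + 1) = c.b i - 1
  constructor
  · intro h
    linarith
  · intro h
    linarith

theorem size_shift {P : ℕ} (c : Code P) (s : ℤ) : (shift c s).size = c.size := by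
  unfold Code.size
  rw [dn_shift]
  rfl

theorem ch_shift (l s : ℤ) (δ : Fin 3) : LT.ch (l + s) δ = LT.ch l δ + s := by
  unfold LT.ch
  ring

/-- all labels of the shifted tree are at least `2` -/
theorem cor_shift (s : ℤ) (hs : 1 ≤ s) : ∀ (t : LT) (l : ℤ), 1 ≤ l → t.ge 1 l →
    t.cor 1 (l + s) = 0 := by
  intro t
  induction t with
  | nil =>
    intro l hl _
    show (if l + s = 1 then 1 else 0) = 0
    rw [if_neg (by omega)]
  | cons δ c u ihc ihu =>
    intro l hl h
    have h1 : 1 ≤ LT.ch l δ ∧ LT.ge 1 c (LT.ch l δ) ∧ LT.ge 1 u l := h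
    show (if l + s = 1 then 1 else 0) + LT.cor 1 c (LT.ch (l + s) δ) + LT.cor 1 u (l + s) = 0
    rw [if_neg (by omega), ch_shift, ihc _ h1.1 h1.2.1, ihu l hl h1.2.2]

theorem ge_shift (hC : ST_C04) (t : LT) (l : ℤ) (n : ℕ) (h : t.ge 1 l) : t.ge 1 (l + n) := by
  induction n with
  | zero => simpa using h
  | succ n ih =>
    have h1 := (hC.2.2.2.1 t (l + n) 1).2 ih
    have h2 := hC.2.2.2.2.1 t (l + n + 1) 1 h1
    have h3 : l + ((n + 1 : ℕ) : ℤ) = l + n + 1 := by push_cast; ring
    rw [h3]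
    exact h2

theorem pos_shift (hC : ST_C04) {P : ℕ} (c : Code P) (n : ℕ) (h : c.Pos) :
    (shift c n).Pos := by
  intro i hi
  have h1 : c.b (i + 1) = c.b i - 1 := by
    have h2 : c.b (i + 1) + (n : ℤ) = c.b i + n - 1 := hi
    linarith
  obtain ⟨h2, h3⟩ := h i h1
  refine ⟨?_, ge_shift hC _ _ n h3⟩
  show 1 ≤ c.b i + (n : ℤ)
  omega

/-- a positive code shifted by at least one has no corner with label `1` -/
theorem cor_pos_shift {P : ℕ} (c : Code P) (s : ℤ) (hs : 1 ≤ s) (h : c.Pos) :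
    (shift c s).cor 1 = 0 := by
  unfold Code.cor
  rw [dn_shift]
  refine Finset.sum_eq_zero ?_
  intro i hi
  have h1 : c.b (i + 1) = c.b i - 1 := (Finset.mem_filter.1 hi).2
  obtain ⟨h2, h3⟩ := h i h1
  exact cor_shift s hs _ _ h2 h3

/-- shifts are injective on the positive codes with a corner of label `1` -/
theorem shift_inj {P : ℕ} (c c' : Code P) (s s' : ℤ) (h : c.Pos) (h' : c'.Pos)
    (h1 : c.cor 1 ≠ 0) (h1' : c'.cor 1 ≠ 0) (he : shift c s = shift c' s') : c = c' := by
  have key : ∀ (a a' : Code P) (u u' : ℤ), a'.Pos → a.cor 1 ≠ 0 → shift a u = shift a' u' →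
      ¬ u < u' := by
    intro a a' u u' ha hc hh hlt
    have h2 : a = shift a' (u' - u) := by
      have h3 : shift (shift a u) (-u) = shift (shift a' u') (-u) := by rw [hh]
      rw [shift_shift, shift_shift, add_neg_cancel, shift_zero] at h3
      rw [h3, sub_eq_add_neg]
    rw [h2] at hc
    exact hc (cor_pos_shift a' (u' - u) (by omega) ha)
  have h2 : s = s' := by
    rcases lt_trichotomy s s' with h3 | h3 | h3
    · exact absurd h3 (key c c' s s' h' h1 he)
    · exact h3
    · exact absurd h3 (key c' c s' s h h1' he.symm)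
  rw [h2] at he
  have h3 : shift (shift c s') (-s') = shift (shift c' s') (-s') := by rw [he]
  rw [shift_shift, shift_shift, add_neg_cancel, shift_zero, shift_zero] at h3
  exact h3

/-- the minimum of a nonnegative code -/
theorem exists_min {P : ℕ} (c : Code P) (h : ∀ i, 0 ≤ c.b i) (r : ℕ) (hr : ∃ i, c.b i ≤ r) :
    ∃ k : ℕ, k ≤ r ∧ c.Min k := by
  classical
  have hex : ∃ n : ℕ, ∃ i, c.b i ≤ n := ⟨r, hr⟩
  refine ⟨Nat.find hex, Nat.find_min' hex hr, ?_, ?_⟩
  · intro i
    by_contra hlt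
    push Not at hlt
    have h1 : ((c.b i).toNat : ℤ) = c.b i := Int.toNat_of_nonneg (h i)
    have h2 : (c.b i).toNat < Nat.find hex := by omega
    exact Nat.find_min hex h2 ⟨i, by omega⟩
  · obtain ⟨i, hi⟩ := Nat.find_spec hex
    refine ⟨i, le_antisymm hi ?_⟩
    by_contra hlt
    push Not at hlt
    have h1 : ((c.b i).toNat : ℤ) = c.b i := Int.toNat_of_nonneg (h i)
    have h2 : (c.b i).toNat < Nat.find hex := by omega
    exact Nat.find_min hex h2 ⟨i, by omega⟩

theorem min_shift {P : ℕ} (c : Code P) (k s : ℤ) (h : c.Min k) : (shift c s).Min (k + s) := by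
  refine ⟨?_, ?_⟩
  · intro i
    have h1 := h.1 i
    show k + s ≤ c.b i + s
    omega
  · obtain ⟨i, hi⟩ := h.2
    refine ⟨i, ?_⟩
    show c.b i + s = k + s
    rw [hi]

end S02

open S02 in
theorem st_S02 (hB : ST_B) (hC1 : ST_C01) (hC4 : ST_C04) : ST_S02 := by
  classical
  intro N P h hP
  obtain ⟨κ, k1, k2, k3, k4, k5, -, k7⟩ := hB N P hP
  set n := 4 * N + 2 * P with hn
  -- the set of codes
  have hA : {c : Code P | c.Min h ∧ c.size = N}.Finite := hC1.2.2 P N h hP
  set A : Finset (Code P) := hA.toFinset with hAdef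
  set T : Finset (Code P) := A.filter (fun c => c.Pos) with hT
  -- the set of pairs
  let S : Type := {x // x ∈ GQ N P}
  haveI : Fintype S := Fintype.ofFinite S
  let Y : Type := Σ x : S, {v : x.1.1.Vert // NB x.1.1 x.1.2 h v}
  haveI : Fintype Y := Fintype.ofFinite Y
  let Z : Type := Σ x : S, x.1.1.Vert
  haveI : Fintype Z := Fintype.ofFinite Z
  let ι : Y → Z := fun y => ⟨y.1, y.2.1⟩
  have hι : Function.Injective ι := by
    rintro ⟨x, v⟩ ⟨x', v'⟩ hxy
    have h1 : x = x' := congrArg Sigma.fst hxy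
    subst h1
    have h2 : v.1 = v'.1 := eq_of_heq (Sigma.mk.inj hxy).2
    have h3 : v = v' := Subtype.ext h2
    rw [h3]
  -- left side
  have hL : ∑ᶠ (x) (_ : x ∈ GQ N P), Ftube h _ x.1 x.2 = (Fintype.card Y : ℝ) := by
    have h1 : ∑ᶠ (x) (_ : x ∈ GQ N P), Ftube h _ x.1 x.2 =
        ∑ᶠ x : S, Ftube h _ x.1.1 x.1.2 :=
      (finsum_set_coe_eq_finsum_mem (f := fun x : RMap (Fin (4 * N + 2 * P)) ×
        Fin (4 * N + 2 * P) => Ftube h _ x.1 x.2) (GQ N P)).symm
    rw [h1, finsum_eq_sum_of_fintype]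
    have h2 : Fintype.card Y = ∑ x : S, Nat.card {v : x.1.1.Vert // NB x.1.1 x.1.2 h v} := by
      rw [← Nat.card_eq_fintype_card]
      exact Nat.card_sigma
    rw [h2, Nat.cast_sum]
    rfl
  -- the minimum
  have hk : ∀ y : Y, ∃ k : ℕ, k ≤ h ∧ (κ (ι y)).Min k := by
    intro y
    refine exists_min _ (fun i => k3 (ι y) i) h ?_
    obtain ⟨i, hi⟩ := y.2.2
    refine ⟨i, (k4 (ι y) i h).2 ?_⟩
    exact near_symm _ (mult_symm _) h _ _ hi
  choose k hk1 hk2 using hk
  have hcor : ∀ z : Z, (κ z).cor 1 ≠ 0 := by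
    intro z
    rw [k5 z]
    -- a dart at the vertex
    obtain ⟨d, hd⟩ : ∃ d, z.1.1.1.tail d = z.2 := by
      obtain ⟨d, hd⟩ := Quotient.exists_rep z.2
      exact ⟨d, hd⟩
    have h1 : z.1.1.1.mult z.2 (z.1.1.1.tail (z.1.1.1.opp d)) ≠ 0 := by
      unfold RMap.mult
      have : Nonempty {d' // z.1.1.1.tail d' = z.2 ∧
          z.1.1.1.tail (z.1.1.1.opp d') = z.1.1.1.tail (z.1.1.1.opp d)} := ⟨⟨d, hd, rfl⟩⟩
      exact Nat.card_pos.ne'
    intro h2
    unfold SPR.deg at h2
    haveI : Fintype z.1.1.1.Vert := Fintype.ofFinite _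
    rw [finsum_eq_sum_of_fintype] at h2
    exact h1 ((Finset.sum_eq_zero_iff.1 h2) _ (Finset.mem_univ _))
  -- the map
  let g : Y → Code P := fun y => shift (κ (ι y)) ((h - k y : ℕ) : ℤ)
  have hgT : ∀ y ∈ (Finset.univ : Finset Y), g y ∈ T := by
    intro y _
    rw [hT, Finset.mem_filter, hAdef, Set.Finite.mem_toFinset]
    refine ⟨⟨?_, ?_⟩, ?_⟩
    · have h1 := min_shift (κ (ι y)) (k y) ((h - k y : ℕ) : ℤ) (hk2 y)
      have h2 : ((k y : ℕ) : ℤ) + ((h - k y : ℕ) : ℤ) = (h : ℤ) := by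
        have := hk1 y
        omega
      rw [h2] at h1
      exact h1
    · show (shift (κ (ι y)) _).size = N
      rw [size_shift]
      exact k1 (ι y)
    · exact pos_shift hC4 _ _ (k2 (ι y))
  have hfib : ∀ c ∈ T, (Finset.univ.filter (fun y : Y => g y = c)).card ≤ n.factorial := by
    intro c _
    rcases (Finset.univ.filter (fun y : Y => g y = c)).eq_empty_or_nonempty with h0 | ⟨y0, hy0⟩
    · rw [h0, Finset.card_empty]
      exact Nat.zero_le _
    · have hy0' : g y0 = c := (Finset.mem_filter.1 hy0).2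
      have h1 : ∀ y ∈ Finset.univ.filter (fun y : Y => g y = c),
          ι y ∈ Finset.univ.filter (fun z : Z => κ z = κ (ι y0)) := by
        intro y hy
        have hy' : g y = c := (Finset.mem_filter.1 hy).2
        rw [Finset.mem_filter]
        refine ⟨Finset.mem_univ _, ?_⟩
        exact shift_inj _ _ _ _ (k2 _) (k2 _) (hcor _) (hcor _) (hy'.trans hy0'.symm)
      have h2 := Finset.card_le_card_of_injOn ι h1 (hι.injOn)
      have h3 : (Finset.univ.filter (fun z : Z => κ z = κ (ι y0))).card =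
          Nat.card {z : Z // κ z = κ (ι y0)} := by
        rw [Nat.card_eq_fintype_card, Fintype.card_subtype]
      rw [h3] at h2
      exact h2.trans (k7 _)
  have hcard : Fintype.card Y ≤ n.factorial * T.card := by
    have h1 := Finset.card_le_mul_card_image_of_maps_to hgT n.factorial hfib
    rwa [Finset.card_univ] at h1
  -- right side
  have hW : ∀ c : Code P, 0 ≤ c.W one pos := by
    intro c
    unfold Code.W
    refine Finset.prod_nonneg ?_
    intro i _
    rw [hC4.1]
    split_ifs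
    · exact zero_le_one
    · exact le_refl _
  have hW1 : ∀ c : Code P, c.Pos → c.W one pos = 1 := by
    intro c hc
    unfold Code.W
    refine Finset.prod_eq_one ?_
    intro i hi
    have h1 : c.b (i + 1) = c.b i - 1 := (Finset.mem_filter.1 hi).2
    rw [hC4.1, if_pos (hc i h1).2]
  have hR : (T.card : ℝ) ≤ ∑ᶠ (c : Code P) (_ : c.Min h ∧ c.size = N), c.W one pos := by
    have h1 : ∑ᶠ (c : Code P) (_ : c.Min h ∧ c.size = N), c.W one pos = ∑ c ∈ A, c.W one pos :=
      finsum_mem_eq_finite_toFinset_sum _ hA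
    rw [h1]
    calc (T.card : ℝ) = ∑ c ∈ T, (1 : ℝ) := by simp
      _ = ∑ c ∈ T, c.W one pos := by
          refine Finset.sum_congr rfl ?_
          intro c hc
          rw [hW1 c (Finset.mem_filter.1 hc).2]
      _ ≤ ∑ c ∈ A, c.W one pos :=
          Finset.sum_le_sum_of_subset_of_nonneg (Finset.filter_subset _ _) (fun c _ _ => hW c)
  rw [hL]
  have hco : PowerSeries.coeff N (CS one pos P h) =
      (1 / 12 : ℝ) ^ N * ∑ᶠ (c : Code P) (_ : c.Min h ∧ c.size = N), c.W one pos := by
    unfold CS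
    rw [PowerSeries.coeff_mk]
  rw [hco]
  have h12 : (12 : ℝ) ^ N * (1 / 12 : ℝ) ^ N = 1 := by
    rw [← mul_pow]
    norm_num
  have h13 : ((n.factorial : ℕ) : ℝ) * 12 ^ N * ((1 / 12 : ℝ) ^ N *
      ∑ᶠ (c : Code P) (_ : c.Min h ∧ c.size = N), c.W one pos) =
      (n.factorial : ℝ) * ∑ᶠ (c : Code P) (_ : c.Min h ∧ c.size = N), c.W one pos := by
    linear_combination (n.factorial : ℝ) *
      (∑ᶠ (c : Code P) (_ : c.Min h ∧ c.size = N), c.W one pos) * h12
  rw [h13]
  calc (Fintype.card Y : ℝ) ≤ ((n.factorial * T.card : ℕ) : ℝ) := by exact_mod_cast hcard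
    _ = (n.factorial : ℝ) * T.card := by push_cast; ring
    _ ≤ _ := mul_le_mul_of_nonneg_left hR (Nat.cast_nonneg _)

end QR
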